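import Pool.Agent.Q260.OE.Stm3
import Pool.Agent.Q210.BD.NrhR

set_option autoImplicit false

/-!
# Project OE of helper260, job COA: the coefficients of arbitrary real dilations
-/

namespace Pool.Agent.Q164.OE

open Complex MeasureTheory Filter Topology Set
open Pool.Agent.Q286.BD
open Pool.Agent.Q210.BD
open Pool.Agent.Q260.OE (tl MM S_COA)

/-- `∑_{k ≤ N} μ(k) ⌊z / k⌋ = [1 ≤ z]` for `0 ≤ z < N + 1` -/
theorem mob {z : ℝ} (hz : 0 ≤ z) {N : ℕ} (hN : ⌊z⌋₊ ≤ N) :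
    ∑ k ∈ Finset.Icc 1 N, ((ArithmeticFunction.moebius k : ℤ) : ℝ) * (⌊z / k⌋ : ℝ) = if 1 ≤ z then 1 else 0 := by
  have e0 : ∀ k ∈ Finset.Icc 1 N, ((ArithmeticFunction.moebius k : ℤ) : ℝ) * (⌊z / k⌋ : ℝ) =
      (((ArithmeticFunction.moebius k : ℤ) * ((⌊z⌋₊ / k : ℕ) : ℤ) : ℤ) : ℝ) := by
    intro k hk
    have h1 : (⌊z / k⌋ : ℝ) = ((⌊z⌋₊ / k : ℕ) : ℝ) := by
      rw [← Nat.floor_div_natCast, natCast_floor_eq_intCast_floor (by positivity)]
    rw [h1]
    push_cast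
    rfl
  rw [Finset.sum_congr rfl e0, ← Int.cast_sum]
  have e1 : ∑ k ∈ Finset.Icc 1 N, (ArithmeticFunction.moebius k : ℤ) * ((⌊z⌋₊ / k : ℕ) : ℤ) =
      ∑ k ∈ Finset.Ioc 0 ⌊z⌋₊, (ArithmeticFunction.moebius k : ℤ) * ((⌊z⌋₊ / k : ℕ) : ℤ) := by
    symm
    refine Finset.sum_subset ?_ ?_
    · intro k hk
      rw [Finset.mem_Ioc] at hk
      rw [Finset.mem_Icc]
      omega
    · intro k hk hk2
      rw [Finset.mem_Icc] at hk
      rw [Finset.mem_Ioc] at hk2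
      rw [Nat.div_eq_of_lt (by omega)]
      simp
  rw [e1]
  have e2 := ArithmeticFunction.sum_Ioc_mul_zeta_eq_sum (R := ℤ) ArithmeticFunction.moebius ⌊z⌋₊
  rw [ArithmeticFunction.moebius_mul_coe_zeta] at e2
  rw [← e2]
  by_cases h : 1 ≤ z
  · rw [if_pos h]
    have h1 : 1 ≤ ⌊z⌋₊ := by rwa [Nat.one_le_floor_iff]
    have : ∑ n ∈ Finset.Ioc 0 ⌊z⌋₊, (1 : ArithmeticFunction ℤ) n = 1 := by
      rw [Finset.sum_eq_single 1]
      · exact ArithmeticFunction.one_one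
      · intro b _ hb
        exact ArithmeticFunction.one_apply_ne hb
      · intro h2
        exact absurd (Finset.mem_Ioc.2 ⟨one_pos, h1⟩) h2
    rw [this]
    norm_num
  · rw [if_neg h]
    have h1 : ⌊z⌋₊ = 0 := by
      rw [Nat.floor_eq_zero]
      exact not_le.1 h
    rw [h1]
    simp

/-- the Möbius inversion -/
theorem tl_eq (a : ℝ →₀ ℝ) (ha : ∀ θ ∈ a.support, 0 < θ ∧ θ ≤ 1) {x : ℝ} (hx : 0 < x) (hx1 : x ≤ 1) :
    tl a x + MM (1 / x) = ∑ k ∈ Finset.Icc 1 ⌊1 / x⌋₊, ((ArithmeticFunction.moebius k : ℤ) : ℝ) *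
      (difR a (k * x) + (∑ θ ∈ a.support, a θ * θ) / (k * x)) := by
  have e1 : ∀ k ∈ Finset.Icc 1 ⌊1 / x⌋₊, ((ArithmeticFunction.moebius k : ℤ) : ℝ) *
      (difR a (k * x) + (∑ θ ∈ a.support, a θ * θ) / (k * x)) =
      ((ArithmeticFunction.moebius k : ℤ) : ℝ) + ∑ θ ∈ a.support, a θ *
        (((ArithmeticFunction.moebius k : ℤ) : ℝ) * (⌊θ / x / k⌋ : ℝ)) := by
    intro k hk
    rw [Finset.mem_Icc] at hk
    have hk1 : (1 : ℝ) ≤ k := by exact_mod_cast hk.1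
    have hk2 : (k : ℝ) ≤ 1 / x := (Nat.le_floor_iff (by positivity)).1 hk.2
    have hkx : (k : ℝ) * x ≤ 1 := by rwa [le_div_iff₀ hx] at hk2
    have hkx0 : 0 < (k : ℝ) * x := by positivity
    rw [difR_eq, if_pos hkx]
    have h2 : ∀ θ ∈ a.support, a θ * Int.fract (θ / (k * x)) =
        a θ * θ / (k * x) - a θ * (⌊θ / x / k⌋ : ℝ) := by
      intro θ _
      rw [div_div, mul_comm x (k : ℝ)]
      have h3 := Int.self_sub_floor (θ / (k * x))
      rw [← h3]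
      ring
    rw [Finset.sum_congr rfl h2, Finset.sum_sub_distrib, ← Finset.sum_div]
    have h3 : ∑ θ ∈ a.support, a θ * (((ArithmeticFunction.moebius k : ℤ) : ℝ) * (⌊θ / x / k⌋ : ℝ)) =
        ((ArithmeticFunction.moebius k : ℤ) : ℝ) * ∑ θ ∈ a.support, a θ * (⌊θ / x / k⌋ : ℝ) := by
      rw [Finset.mul_sum]
      exact Finset.sum_congr rfl fun θ _ => by ring
    rw [h3]
    ring
  rw [Finset.sum_congr rfl e1, Finset.sum_add_distrib, Finset.sum_comm]
  have e2 : ∀ θ ∈ a.support, ∑ k ∈ Finset.Icc 1 ⌊1 / x⌋₊, a θ *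
      (((ArithmeticFunction.moebius k : ℤ) : ℝ) * (⌊θ / x / k⌋ : ℝ)) = if x ≤ θ then a θ else 0 := by
    intro θ hθ
    obtain ⟨h0, h1⟩ := ha θ hθ
    rw [← Finset.mul_sum, mob (by positivity) (Nat.floor_mono (by gcongr))]
    by_cases h : x ≤ θ
    · rw [if_pos h, if_pos (by rwa [le_div_iff₀ hx, one_mul]), mul_one]
    · rw [if_neg h, if_neg (by rwa [le_div_iff₀ hx, one_mul]), mul_zero]
  rw [Finset.sum_congr rfl e2, add_comm]
  rfl

theorem coa : S_COA := by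
  intro δ hδ
  obtain ⟨K, hK⟩ : ∃ K : ℕ, K = ⌊1 / δ⌋₊ := ⟨_, rfl⟩
  refine ⟨2 * K * (K * (1 + 1 / δ ^ 2)) + 1, by positivity, ?_⟩
  intro a ha
  have hJ0 : 0 ≤ JR a := integral_nonneg fun x => sq_nonneg _
  obtain ⟨B, hB⟩ : ∃ B : ℝ, B = ∑ θ ∈ a.support, a θ * θ := ⟨_, rfl⟩
  have hint := intR a ha
  have hBJ : B ^ 2 ≤ JR a := by
    rw [JR_split a ha, ← hB]
    have : 0 ≤ ∫ x in Ioc (0 : ℝ) 1, difR a x ^ 2 := integral_nonneg fun x => sq_nonneg _
    linarith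
  -- pointwise bound
  have hpt : ∀ x ∈ Ioc δ 1, (tl a x + MM (1 / x)) ^ 2 ≤
      ∑ k ∈ Finset.Icc 1 K, 2 * (K : ℝ) * (difR a (k * x) ^ 2 + JR a / δ ^ 2) := by
    intro x hx
    have hx0 : 0 < x := hδ.trans hx.1
    rw [tl_eq a ha hx0 hx.2, ← hB]
    have hle : ⌊1 / x⌋₊ ≤ K := by
      rw [hK]
      refine Nat.floor_mono ?_
      exact one_div_le_one_div_of_le hδ hx.1.le
    have h1 := sq_sum_le_card_mul_sum_sq (s := Finset.Icc 1 ⌊1 / x⌋₊)
      (f := fun k : ℕ => ((ArithmeticFunction.moebius k : ℤ) : ℝ) * (difR a (k * x) + B / (k * x)))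
    refine h1.trans ?_
    rw [Nat.card_Icc, Nat.add_sub_cancel]
    have h2 : ∀ k ∈ Finset.Icc 1 ⌊1 / x⌋₊,
        (((ArithmeticFunction.moebius k : ℤ) : ℝ) * (difR a (k * x) + B / (k * x))) ^ 2 ≤
        2 * (difR a (k * x) ^ 2 + JR a / δ ^ 2) := by
      intro k hk
      rw [Finset.mem_Icc] at hk
      have hk1 : (1 : ℝ) ≤ k := by exact_mod_cast hk.1
      have hm : (((ArithmeticFunction.moebius k : ℤ) : ℝ)) ^ 2 ≤ 1 := by
        have h3 := ArithmeticFunction.abs_moebius_le_one (n := k)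
        have h4 : |((ArithmeticFunction.moebius k : ℤ) : ℝ)| ≤ 1 := by exact_mod_cast h3
        rw [← sq_abs]
        exact pow_le_one₀ (abs_nonneg _) h4
      have hd : (B / (k * x)) ^ 2 ≤ JR a / δ ^ 2 := by
        rw [div_pow]
        refine div_le_div₀ hJ0 hBJ (by positivity) ?_
        refine pow_le_pow_left₀ hδ.le ?_ 2
        nlinarith [hx.1]
      rw [mul_pow]
      calc _ ≤ 1 * (difR a (k * x) + B / (k * x)) ^ 2 := by gcongr
        _ ≤ 2 * (difR a (k * x) ^ 2 + (B / (k * x)) ^ 2) := by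
            nlinarith [sq_nonneg (difR a (k * x) - B / (k * x))]
        _ ≤ _ := by linarith
    calc (⌊1 / x⌋₊ : ℝ) * ∑ k ∈ Finset.Icc 1 ⌊1 / x⌋₊,
          (((ArithmeticFunction.moebius k : ℤ) : ℝ) * (difR a (k * x) + B / (k * x))) ^ 2 ≤
        (K : ℝ) * ∑ k ∈ Finset.Icc 1 ⌊1 / x⌋₊, 2 * (difR a (k * x) ^ 2 + JR a / δ ^ 2) := by
          refine mul_le_mul (by exact_mod_cast hle) (Finset.sum_le_sum h2)
            (Finset.sum_nonneg fun _ _ => sq_nonneg _) (by positivity)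
      _ ≤ (K : ℝ) * ∑ k ∈ Finset.Icc 1 K, 2 * (difR a (k * x) ^ 2 + JR a / δ ^ 2) := by
          refine mul_le_mul_of_nonneg_left ?_ (by positivity)
          refine Finset.sum_le_sum_of_subset_of_nonneg (Finset.Icc_subset_Icc_right hle) ?_
          intro k _ _
          have : 0 ≤ JR a / δ ^ 2 := by positivity
          have := sq_nonneg (difR a (k * x))
          linarith
      _ = _ := by
          rw [Finset.mul_sum]
          exact Finset.sum_congr rfl fun k _ => by ring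
  -- integrability of the terms
  have hcomp : ∀ k ∈ Finset.Icc 1 K, IntegrableOn (fun x : ℝ => difR a (k * x) ^ 2) (Ioi 0) := by
    intro k hk
    rw [Finset.mem_Icc] at hk
    have hk0 : (0 : ℝ) < k := by exact_mod_cast hk.1
    have h1 := (integrableOn_Ioi_comp_mul_left_iff (fun x : ℝ => difR a x ^ 2) 0 hk0).2
    rw [mul_zero] at h1
    exact h1 hint
  have hconst : IntegrableOn (fun _ : ℝ => JR a / δ ^ 2) (Ioc δ 1) := by
    rw [integrableOn_const_iff]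
    right
    exact measure_Ioc_lt_top
  have hsub : Ioc δ 1 ⊆ Ioi (0 : ℝ) := fun x hx => hδ.trans hx.1
  have hterm : ∀ k ∈ Finset.Icc 1 K, IntegrableOn
      (fun x : ℝ => 2 * (K : ℝ) * (difR a (k * x) ^ 2 + JR a / δ ^ 2)) (Ioc δ 1) := fun k hk =>
    (((hcomp k hk).mono_set hsub).add hconst).const_mul _
  have hterm2 : ∀ k ∈ Finset.Icc 1 K, ∫ x in Ioc δ 1, 2 * (K : ℝ) * (difR a (k * x) ^ 2 + JR a / δ ^ 2) ≤
      2 * (K : ℝ) * (JR a + JR a / δ ^ 2) := by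
    intro k hk
    rw [integral_const_mul]
    refine mul_le_mul_of_nonneg_left ?_ (by positivity)
    rw [integral_add ((hcomp k hk).mono_set hsub) hconst]
    refine add_le_add ?_ ?_
    · have h1 : ∫ x in Ioc δ 1, difR a (k * x) ^ 2 ≤ ∫ x in Ioi (0 : ℝ), difR a (k * x) ^ 2 :=
        setIntegral_mono_set (hcomp k hk) (Filter.Eventually.of_forall fun x => sq_nonneg _)
          hsub.eventuallyLE
      rw [Finset.mem_Icc] at hk
      have hk0 : (0 : ℝ) < k := by exact_mod_cast hk.1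
      have hk1 : (1 : ℝ) ≤ k := by exact_mod_cast hk.1
      have h2 := integral_comp_mul_left_Ioi (fun x : ℝ => difR a x ^ 2) 0 hk0
      rw [mul_zero] at h2
      rw [h2] at h1
      refine h1.trans ?_
      show (k : ℝ)⁻¹ * JR a ≤ JR a
      exact mul_le_of_le_one_left hJ0 (inv_le_one_of_one_le₀ hk1)
    · rw [setIntegral_const, smul_eq_mul]
      refine mul_le_of_le_one_left (by positivity) ?_
      rw [Measure.real, Real.volume_Ioc]
      refine (ENNReal.toReal_mono ENNReal.one_ne_top (ENNReal.ofReal_le_one.2 (by linarith))).trans ?_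
      simp
  calc ∫ x in Ioc δ 1, (tl a x + MM (1 / x)) ^ 2 ≤
      ∫ x in Ioc δ 1, ∑ k ∈ Finset.Icc 1 K, 2 * (K : ℝ) * (difR a (k * x) ^ 2 + JR a / δ ^ 2) := by
        refine integral_mono_of_nonneg (Filter.Eventually.of_forall fun x => sq_nonneg _)
          (integrable_finsetSum _ hterm) ?_
        filter_upwards [ae_restrict_mem measurableSet_Ioc] with x hx
        exact hpt x hx
    _ = ∑ k ∈ Finset.Icc 1 K, ∫ x in Ioc δ 1, 2 * (K : ℝ) * (difR a (k * x) ^ 2 + JR a / δ ^ 2) :=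
        integral_finsetSum _ hterm
    _ ≤ ∑ k ∈ Finset.Icc 1 K, 2 * (K : ℝ) * (JR a + JR a / δ ^ 2) := Finset.sum_le_sum hterm2
    _ = 2 * K * (K * (1 + 1 / δ ^ 2)) * JR a := by
        rw [Finset.sum_const, Nat.card_Icc, Nat.add_sub_cancel, nsmul_eq_mul]
        ring
    _ ≤ _ := by linarith

end Pool.Agent.Q164.OE
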