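import Pool.Agent.Q260.OE.Stm

/-!
# The kernel polynomials from the shifted Legendre polynomials
-/

set_option autoImplicit false

open Polynomial MeasureTheory

namespace Pool.Agent.Q164.OE

/-- the integral over the unit interval -/
noncomputable def J (p : ℝ[X]) : ℝ := ∫ u in (0 : ℝ)..1, p.eval u

theorem J_int (p : ℝ[X]) : IntervalIntegrable (fun u : ℝ => p.eval u) volume 0 1 :=
  p.continuous.intervalIntegrable 0 1

theorem J_add (p q : ℝ[X]) : J (p + q) = J p + J q := by
  unfold J
  simp only [eval_add]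
  exact intervalIntegral.integral_add (J_int p) (J_int q)

theorem J_sub (p q : ℝ[X]) : J (p - q) = J p - J q := by
  unfold J
  simp only [eval_sub]
  exact intervalIntegral.integral_sub (J_int p) (J_int q)

theorem J_C (c : ℝ) (p : ℝ[X]) : J (C c * p) = c * J p := by
  unfold J
  simp only [eval_mul, eval_C]
  exact intervalIntegral.integral_const_mul c _

theorem J_const (c : ℝ) : J (C c) = c := by
  unfold J
  simp

theorem J_zero : J 0 = 0 := by
  unfold J
  simp

theorem J_der (p : ℝ[X]) : J (derivative p) = p.eval 1 - p.eval 0 := by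
  unfold J
  exact intervalIntegral.integral_eq_sub_of_hasDerivAt (f := fun u => p.eval u)
    (f' := fun u => (derivative p).eval u) (fun x _ => p.hasDerivAt x) (J_int _)

theorem J_parts (p q : ℝ[X]) (h0 : p.eval 0 = 0) (h1 : p.eval 1 = 0) :
    J (derivative p * q) = - J (p * derivative q) := by
  have h := J_der (p * q)
  rw [derivative_mul, J_add, eval_mul, eval_mul, h0, h1, zero_mul, zero_mul, sub_zero] at h
  linarith

/-- the weight `x^k (1 - x)^k` -/
noncomputable def W (k : ℕ) : ℝ[X] := X ^ k * (1 - X) ^ k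

/-- the Legendre polynomial of `[0, 1]` -/
noncomputable def Pk (k : ℕ) : ℝ[X] := (shiftedLegendre k).map (Int.castRingHom ℝ)

theorem rodrigues (k : ℕ) : C ((k.factorial : ℕ) : ℝ) * Pk k = derivative^[k] (W k) := by
  have h := congrArg (Polynomial.map (Int.castRingHom ℝ)) (factorial_mul_shiftedLegendre_eq k)
  rw [Polynomial.map_mul, ← Polynomial.iterate_derivative_map] at h
  simp only [Polynomial.map_natCast, Polynomial.map_mul, Polynomial.map_pow, map_X, Polynomial.map_sub,
    Polynomial.map_one] at h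
  unfold Pk W
  rw [← h]
  simp

theorem W_zero {k j : ℕ} (h : j < k) : (derivative^[j] (W k)).eval 0 = 0 := by
  have h1 : (X : ℝ[X]) ^ k ∣ W k := dvd_mul_right _ _
  have h2 := pow_sub_dvd_iterate_derivative_of_pow_dvd j h1
  obtain ⟨r, hr⟩ := h2
  rw [hr, eval_mul, eval_pow, eval_X, zero_pow (by omega), zero_mul]

theorem W_one {k j : ℕ} (h : j < k) : (derivative^[j] (W k)).eval 1 = 0 := by
  have h1 : (1 - X : ℝ[X]) ^ k ∣ W k := dvd_mul_left _ _
  have h2 := pow_sub_dvd_iterate_derivative_of_pow_dvd j h1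
  obtain ⟨r, hr⟩ := h2
  rw [hr, eval_mul, eval_pow, eval_sub, eval_one, eval_X, sub_self, zero_pow (by omega), zero_mul]

theorem parts (k : ℕ) : ∀ j, j ≤ k → ∀ q : ℝ[X],
    J (derivative^[j] (W k) * q) = (-1) ^ j * J (W k * derivative^[j] q) := by
  intro j
  induction j with
  | zero => intro _ q; simp
  | succ j ih =>
    intro hj q
    rw [Function.iterate_succ_apply', J_parts _ _ (W_zero (by omega)) (W_one (by omega)),
      ih (by omega), pow_succ, Function.iterate_succ_apply]
    ring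

theorem kfac_ne (k : ℕ) : ((k.factorial : ℕ) : ℝ) ≠ 0 := by
  exact_mod_cast k.factorial_ne_zero

theorem ortho {k : ℕ} {q : ℝ[X]} (hq : q.degree < k) : J (Pk k * q) = 0 := by
  have h1 := parts k k le_rfl q
  have h2 : derivative^[k] q = 0 := by
    by_cases h0 : q = 0
    · rw [h0]
      exact iterate_map_zero _ _
    · apply iterate_derivative_eq_zero
      exact (natDegree_lt_iff_degree_lt h0).2 hq
  rw [h2, mul_zero, J_zero, mul_zero, ← rodrigues, mul_assoc, J_C] at h1
  rcases mul_eq_zero.1 h1 with h | h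
  · exact absurd h (kfac_ne k)
  · exact h

/-- the Beta integral -/
theorem beta (j : ℕ) : ∀ i : ℕ, J (X ^ i * (1 - X) ^ j) =
    (i.factorial : ℝ) * (j.factorial : ℝ) / ((i + j + 1).factorial : ℝ) := by
  induction j with
  | zero =>
    intro i
    rw [pow_zero, mul_one]
    unfold J
    simp only [eval_pow, eval_X]
    rw [integral_pow]
    have h1 : ((i + 0 + 1).factorial : ℝ) = ((i : ℝ) + 1) * (i.factorial : ℝ) := by
      rw [add_zero, Nat.factorial_succ]
      push_cast
      ring
    rw [h1]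
    have h2 := kfac_ne i
    have h3 : (i : ℝ) + 1 ≠ 0 := by positivity
    field_simp
    simp
  | succ j ih =>
    intro i
    have h1 := J_der (X ^ (i + 1) * (1 - X) ^ (j + 1))
    rw [derivative_mul, derivative_X_pow, derivative_pow, derivative_sub, derivative_one, derivative_X] at h1
    have e : C ((i + 1 : ℕ) : ℝ) * X ^ (i + 1 - 1) * (1 - X) ^ (j + 1) +
        X ^ (i + 1) * (C ((j + 1 : ℕ) : ℝ) * (1 - X) ^ (j + 1 - 1) * (0 - 1)) =
        C ((i : ℝ) + 1) * (X ^ i * (1 - X) ^ (j + 1)) - C ((j : ℝ) + 1) * (X ^ (i + 1) * (1 - X) ^ j) := by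
      rw [Nat.add_sub_cancel, Nat.add_sub_cancel]
      push_cast
      ring
    rw [e, J_sub, J_C, J_C, ih (i + 1)] at h1
    simp only [eval_mul, eval_pow, eval_sub, eval_one, eval_X, sub_self] at h1
    rw [zero_pow (Nat.succ_ne_zero j), zero_pow (Nat.succ_ne_zero i), mul_zero, zero_mul, sub_zero,
      sub_eq_zero] at h1
    have h3 : (i : ℝ) + 1 ≠ 0 := by positivity
    have h4 : ((i + 1).factorial : ℝ) = ((i : ℝ) + 1) * (i.factorial : ℝ) := by
      rw [Nat.factorial_succ]; push_cast; ring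
    have h5 : ((j + 1).factorial : ℝ) = ((j : ℝ) + 1) * (j.factorial : ℝ) := by
      rw [Nat.factorial_succ]; push_cast; ring
    have h6 : i + 1 + j + 1 = i + (j + 1) + 1 := by ring
    rw [h4, h6] at h1
    rw [h5]
    have h7 := kfac_ne (i + (j + 1) + 1)
    apply mul_left_cancel₀ h3
    rw [h1]
    ring

theorem deg_Pk (k : ℕ) : (Pk k).natDegree = k := by
  unfold Pk
  rw [natDegree_map_eq_of_injective (RingHom.injective_int _), natDegree_shiftedLegendre]

theorem coeff_Pk (k : ℕ) : (Pk k).coeff k = (-1) ^ k * ((k + k).choose k : ℝ) := by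
  unfold Pk
  rw [coeff_map, coeff_shiftedLegendre]
  simp

theorem Pk_zero (k : ℕ) : (Pk k).eval 0 = 1 := by
  rw [← coeff_zero_eq_eval_zero]
  unfold Pk
  rw [coeff_map, coeff_shiftedLegendre]
  simp

theorem der_Pk (k : ℕ) : derivative^[k] (Pk k) = C ((k.factorial : ℝ) * ((-1) ^ k * ((k + k).choose k : ℝ))) := by
  ext n
  rw [coeff_iterate_derivative, coeff_C]
  by_cases hn : n = 0
  · rw [if_pos hn, hn, zero_add, Nat.descFactorial_self, coeff_Pk, nsmul_eq_mul]
  · rw [if_neg hn, coeff_eq_zero_of_natDegree_lt (by rw [deg_Pk]; omega), smul_zero]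

theorem norm_Pk (k : ℕ) : J (Pk k * Pk k) = 1 / (2 * (k : ℝ) + 1) := by
  have h1 := parts k k le_rfl (Pk k)
  rw [← rodrigues, mul_assoc, J_C, der_Pk, mul_comm (W k), J_C] at h1
  have h2 : J (W k) = _ := beta k k
  rw [h2] at h1
  have h3 := kfac_ne k
  apply mul_left_cancel₀ h3
  rw [h1]
  have h4 : ((k + k).choose k : ℝ) * (k.factorial : ℝ) * (k.factorial : ℝ) = ((k + k).factorial : ℝ) := by
    exact_mod_cast Nat.add_choose_mul_factorial_mul_factorial k k
  have h5 : ((k + k + 1).factorial : ℝ) = (2 * (k : ℝ) + 1) * ((k + k).factorial : ℝ) := by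
    rw [Nat.factorial_succ]; push_cast; ring
  have h6 := kfac_ne (k + k)
  have h7 : (2 * (k : ℝ) + 1) ≠ 0 := by positivity
  have h8 : ((-1 : ℝ) ^ k) * ((-1) ^ k) = 1 := by
    rw [← mul_pow]; simp
  rw [h5]
  calc (-1 : ℝ) ^ k * ((k.factorial : ℝ) * ((-1) ^ k * ((k + k).choose k : ℝ)) *
        ((k.factorial : ℝ) * (k.factorial : ℝ) / ((2 * (k : ℝ) + 1) * ((k + k).factorial : ℝ))))
      = ((-1 : ℝ) ^ k * (-1) ^ k) * (k.factorial : ℝ) *
        ((((k + k).choose k : ℝ) * (k.factorial : ℝ) * (k.factorial : ℝ)) /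
          ((2 * (k : ℝ) + 1) * ((k + k).factorial : ℝ))) := by ring
    _ = (k.factorial : ℝ) * (1 / (2 * (k : ℝ) + 1)) := by
        rw [h8, h4, one_mul]
        field_simp

theorem pm_succ (m : ℕ) : Pool.Agent.Q260.OE.pm (m + 1) =
    Pool.Agent.Q260.OE.pm m + C (2 * (m : ℝ) + 1) * Pk m := by
  unfold Pool.Agent.Q260.OE.pm
  rw [Finset.sum_range_succ]
  unfold Pk
  congr 3
  push_cast
  ring

theorem pm_deg (m : ℕ) : (Pool.Agent.Q260.OE.pm m).degree < m := by
  induction m with
  | zero =>
    unfold Pool.Agent.Q260.OE.pm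
    simp
  | succ m ih =>
    rw [pm_succ]
    refine (degree_add_le _ _).trans_lt ?_
    rw [max_lt_iff]
    constructor
    · exact ih.trans (by exact_mod_cast Nat.lt_succ_self m)
    · have h7 : (2 * (m : ℝ) + 1) ≠ 0 := by positivity
      rw [degree_C_mul h7]
      have h1 : (Pk m).degree ≤ m := by
        rw [← natDegree_le_iff_degree_le, deg_Pk]
      exact h1.trans_lt (by exact_mod_cast Nat.lt_succ_self m)

theorem pm_zero (m : ℕ) : (Pool.Agent.Q260.OE.pm m).eval 0 = (m : ℝ) ^ 2 := by
  induction m with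
  | zero =>
    unfold Pool.Agent.Q260.OE.pm
    simp
  | succ m ih =>
    rw [pm_succ, eval_add, eval_mul, eval_C, ih, Pk_zero]
    push_cast
    ring

theorem repr (m : ℕ) : ∀ q : ℝ[X], q.degree < m → J (Pool.Agent.Q260.OE.pm m * q) = q.eval 0 := by
  induction m with
  | zero =>
    intro q hq
    have h0 : q = 0 := by
      by_contra hne
      have h1 : (0 : WithBot ℕ) ≤ q.degree := zero_le_degree_iff.2 hne
      exact absurd hq (not_lt.2 (by exact_mod_cast h1))
    rw [h0, mul_zero, J_zero, eval_zero]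
  | succ m ih =>
    intro q hq
    set c : ℝ := q.coeff m / (Pk m).coeff m with hc
    set r : ℝ[X] := q - C c * Pk m with hr
    have hlead : (Pk m).coeff m ≠ 0 := by
      rw [coeff_Pk]
      apply mul_ne_zero
      · exact pow_ne_zero _ (by norm_num)
      · exact_mod_cast (Nat.choose_pos (by omega)).ne'
    have hrd : r.degree < m := by
      rw [degree_lt_iff_coeff_zero]
      intro n hn
      rw [hr, coeff_sub, coeff_C_mul]
      rcases Nat.eq_or_lt_of_le hn with h | h
      · rw [← h, hc, div_mul_cancel₀ _ hlead, sub_self]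
      · rw [coeff_eq_zero_of_natDegree_lt (p := Pk m) (by rw [deg_Pk]; exact h), mul_zero, sub_zero]
        rw [degree_lt_iff_coeff_zero] at hq
        exact hq n h
    have hq' : q = r + C c * Pk m := by rw [hr]; ring
    rw [hq', pm_succ]
    have e : (Pool.Agent.Q260.OE.pm m + C (2 * (m : ℝ) + 1) * Pk m) * (r + C c * Pk m) =
        Pool.Agent.Q260.OE.pm m * r + C c * (Pk m * Pool.Agent.Q260.OE.pm m) +
          (C (2 * (m : ℝ) + 1) * (Pk m * r) + C ((2 * (m : ℝ) + 1) * c) * (Pk m * Pk m)) := by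
      rw [C_mul]
      ring
    rw [e, J_add, J_add, J_add, J_C, J_C, J_C, ih r hrd, ortho (pm_deg m), ortho hrd, norm_Pk, eval_add,
      eval_mul, eval_C, Pk_zero]
    have h7 : (2 * (m : ℝ) + 1) ≠ 0 := by positivity
    field_simp
    ring

theorem leg : Pool.Agent.Q260.OE.S_LEG := by
  intro m
  have hrep : ∀ q : ℝ[X], q.degree < m → ∫ u in (0 : ℝ)..1, (Pool.Agent.Q260.OE.pm m).eval u * q.eval u =
      q.eval 0 := by
    intro q hq
    have h := repr m q hq
    unfold J at h
    simp only [eval_mul] at h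
    exact h
  have hsq : ∫ u in (0 : ℝ)..1, (Pool.Agent.Q260.OE.pm m).eval u ^ 2 = (m : ℝ) ^ 2 := by
    have h := hrep _ (pm_deg m)
    rw [pm_zero] at h
    rw [← h]
    congr 1
    funext u
    ring
  have hone : 1 ≤ m → ∫ u in (0 : ℝ)..1, (Pool.Agent.Q260.OE.pm m).eval u = 1 := by
    intro hm
    have h := hrep 1 (by
      rw [degree_one]
      exact_mod_cast hm)
    simp only [eval_one, mul_one] at h
    exact h
  refine ⟨pm_deg m, pm_zero m, hrep, hsq, hone, ?_⟩
  have hint : IntervalIntegrable (fun u : ℝ => (Pool.Agent.Q260.OE.pm m).eval u) volume 0 1 := J_int _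
  have hint2 : IntervalIntegrable (fun u : ℝ => (Pool.Agent.Q260.OE.pm m).eval u ^ 2) volume 0 1 :=
    (((Pool.Agent.Q260.OE.pm m).continuous).pow 2).intervalIntegrable 0 1
  have e : ∀ u : ℝ, ((Pool.Agent.Q260.OE.pm m).eval u - m) ^ 2 =
      (Pool.Agent.Q260.OE.pm m).eval u ^ 2 - 2 * (m : ℝ) * (Pool.Agent.Q260.OE.pm m).eval u + (m : ℝ) ^ 2 := by
    intro u
    ring
  simp only [e]
  rw [intervalIntegral.integral_add (hint2.sub (hint.const_mul _)) (intervalIntegrable_const),
    intervalIntegral.integral_sub hint2 (hint.const_mul _), intervalIntegral.integral_const_mul, hsq]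
  rcases Nat.eq_zero_or_pos m with h0 | h0
  · subst h0
    simp
  · rw [hone h0]
    simp
    ring

end Pool.Agent.Q164.OE
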